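import Pool.Agent.PCO.StmtsB

/-! PCO squad (MP_e54c4c_gt), row SPZ: existence of a special pair (helper65). -/

set_option autoImplicit false

open Matrix Filter Topology

namespace Pool.Agent.PCO.H65

open Pool.Agent.PFS Pool.Agent.PFJ Pool.Agent.PCO

theorem ind2_of {n : ℕ} {x a : V n} (hx : x ≠ 0) (h : ∀ α β : ℝ, a ≠ α • x + β • (0 : V n)) :
    Ind2 a x := by
  intro s t hst
  have hs : s = 0 := by
    by_contra hs
    apply h (-(s⁻¹ * t)) 0
    have h1 : s • a = -(t • x) := eq_neg_of_add_eq_zero_left hst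
    have h2 : a = s⁻¹ • (s • a) := by rw [smul_smul, inv_mul_cancel₀ hs, one_smul]
    rw [h2, h1, smul_neg, smul_smul, neg_smul, smul_zero, add_zero]
  refine ⟨hs, ?_⟩
  rw [hs, zero_smul, zero_add] at hst
  rcases smul_eq_zero.mp hst with h1 | h1
  · exact h1
  · exact absurd h1 hx

theorem ind2_symm {n : ℕ} {x a : V n} (h : Ind2 a x) : Ind2 x a := by
  intro s t hst
  rw [add_comm] at hst
  exact ⟨(h t s hst).2, (h t s hst).1⟩

/-- SPZ -/
theorem spz (hBF1 : Bf1Stmt) (hBF2 : Bf2Stmt) (hBF3 : Bf3Stmt) (hSMF : SmfStmt) (hPRJ : PrjStmt)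
    (hPRF : PrfStmt) (hTZA : TzaStmt) (hDON : DonStmt) : SpzStmt := by
  intro n C Γ d H U v v' hB hB' hd hne
  obtain ⟨p, hp⟩ := hPRJ n C Γ d H U v hB hd
  have hx0 : p v' ≠ 0 := hDON n C Γ d H U v v' p hB hB' hd hp hne
  have F1' := hBF1 n C Γ H.toCC H.maxc U v' hB'
  have F2 := hBF2 n C Γ H.toCC H.maxc U v hB
  have F3 := hBF3 n C Γ H.toCC H.maxc U v hB
  have hv'cl : v' ∈ closure C := F1'.2.1
  have hxU : p v' ∈ U := hp.mem v'
  have hxcl : p v' ∈ closure C := hp.pos v' hv'cl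
  obtain ⟨a, ha, hax⟩ := F2.2.2.2.1 (p v') 0
  have hIax : Ind2 a (p v') := ind2_of hx0 hax
  obtain ⟨c, hc, hca⟩ := F2.2.2.2.1 a 0
  have hIac : Ind2 a c := ind2_symm (ind2_of ha.2.2.1 hca)
  obtain ⟨T, U', hT1, hT2, hd', hTc, hTa, hTpos, hTsml, hTU, hTq⟩ :=
    hTZA n C Γ d H U v v' a c hB hB' hd ha hc hIac
  obtain ⟨t, ht⟩ := hTU (p v') hxU
  have hTx : T (p v') ≠ 0 := by
    intro h0
    have hs : Sml C a (p v') := hTsml _ h0
    obtain ⟨ψ, hψS, hψpos, -⟩ := F3.1 a ha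
    have h1 : ψ (p v') = 0 :=
      (hSMF n C H.toCC.toPCone a ha.2.1).2.2.1 ψ hψpos hψS.at_ _ hs
    have h2 : 0 < ψ (p v') := F3.2.2.2.1 a ψ ha hψS _ hxU hxcl hIax
    linarith
  have hTxcl : T (p v') ∈ closure C := hTpos _ hxcl
  have ht0 : 0 < t := by
    rcases lt_trichotomy t 0 with h | h | h
    · exfalso
      apply hTx
      apply H.toCC.toPCone.salient _ hTxcl
      rw [ht, ← neg_smul]
      exact H.toCC.toPCone.cl_smul hTc.2.1 (by linarith)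
    · exfalso
      apply hTx
      rw [ht, h, zero_smul]
    · exact h
  have hTU' : ∀ u ∈ U, T u ∈ U' := by
    intro u hu
    obtain ⟨r, hr⟩ := hTU u hu
    rw [hr]
    exact U'.smul_mem _ hTc.1
  refine ⟨U', T v, T v', T c, t, hT1, hT2, hd', hTc, ht0, fun p' hp' => ?_⟩
  have h8 := (hPRF n C Γ d H U v hB hd p hp).2.2.2.2.2.2.2 T U' p' hTpos hTU' hp' v'
  have hcomp : p' (T (p v')) = T (p v') := hp'.idU _ (hTU' _ hxU)
  rw [h8, ht]

end Pool.Agent.PCO.H65
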